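import Mathlib

/-!
# Unit-perimeter triangles: `u(n) ≥ c n^(4/3)`

For an integer `K ≥ 2` the points `(x / (4K²), y / (2K))` with `0 ≤ x < 4K²`, `0 ≤ y < 2K`
span at least `K⁴` nondegenerate triangles of perimeter exactly `1`: the isosceles triangles
`(x, y), (x + 2(K² - j²), y), (x + K² - j², y + j)` (lattice coordinates), `1 ≤ j < K`,
have side lengths `2(K² - j²)`, `K² + j²`, `K² + j²` divided by `4K²`.
-/

open Finset

namespace Pool.Agent.Results.MP_75315a_co.FourThirdsH55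

/-- The Euclidean plane. -/
abbrev Plane : Type := EuclideanSpace ℝ (Fin 2)

/-- `t` is the vertex set of a nondegenerate triangle of perimeter `1`. -/
def IsUnitPerimeterTriangle (t : Finset Plane) : Prop :=
  ∃ a b c : Plane, t = {a, b, c} ∧ ¬ Collinear ℝ {a, b, c} ∧
    dist a b + dist b c + dist c a = 1

/-- The number of unit-perimeter triangles spanned by `P` (each counted once, as an unordered
triple of points of `P`). -/
noncomputable def triCount (P : Finset Plane) : ℕ :=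
  {t : Finset Plane | t ⊆ P ∧ IsUnitPerimeterTriangle t}.ncard

/-- `u n`: the maximum number of unit-perimeter triangles spanned by `n` points of the plane. -/
noncomputable def u (n : ℕ) : ℕ :=
  sSup {m : ℕ | ∃ P : Finset Plane, P.card = n ∧ triCount P = m}

theorem finite_tri (P : Finset Plane) :
    {t : Finset Plane | t ⊆ P ∧ IsUnitPerimeterTriangle t}.Finite := by
  refine (P.powerset.finite_toSet).subset ?_
  intro t ht
  simp only [Finset.mem_coe, Finset.mem_powerset]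
  exact ht.1

theorem triCount_le (P : Finset Plane) : triCount P ≤ 2 ^ P.card := by
  have h : {t : Finset Plane | t ⊆ P ∧ IsUnitPerimeterTriangle t}.ncard
      ≤ (↑P.powerset : Set (Finset Plane)).ncard := by
    apply Set.ncard_le_ncard
    · intro t ht
      simp only [Finset.mem_coe, Finset.mem_powerset]
      exact ht.1
    · exact P.powerset.finite_toSet
  rw [Set.ncard_coe_finset, Finset.card_powerset] at h
  exact h

theorem bddAbove_u (n : ℕ) :
    BddAbove {m : ℕ | ∃ P : Finset Plane, P.card = n ∧ triCount P = m} := by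
  refine ⟨2 ^ n, ?_⟩
  rintro m ⟨P, hP, rfl⟩
  rw [← hP]
  exact triCount_le P

theorem triCount_mono {P Q : Finset Plane} (h : P ⊆ Q) : triCount P ≤ triCount Q := by
  apply Set.ncard_le_ncard
  · intro t ht
    exact ⟨ht.1.trans h, ht.2⟩
  · exact finite_tri Q

/-- Any finite set with at most `n` points gives a lower bound for `u n`. -/
theorem le_u {n : ℕ} (P : Finset Plane) (hP : P.card ≤ n) : triCount P ≤ u n := by
  obtain ⟨Q, hQ, hQn⟩ := Infinite.exists_superset_card_eq P n hP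
  calc triCount P ≤ triCount Q := triCount_mono hQ
    _ ≤ u n := le_csSup (bddAbove_u n) ⟨Q, hQn, rfl⟩

/-- The point with lattice coordinates `(x, y)`. -/
noncomputable def pt (K : ℕ) (q : ℤ × ℤ) : Plane :=
  !₂[(q.1 : ℝ) / (4 * (K : ℝ) ^ 2), (q.2 : ℝ) / (2 * (K : ℝ))]

theorem pt_injective {K : ℕ} (hK : 0 < K) : Function.Injective (pt K) := by
  intro q r h
  have hK' : (0 : ℝ) < K := by exact_mod_cast hK
  have h0 := congrFun (congrArg (fun v : Plane => (v : Fin 2 → ℝ)) h) 0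
  have h1 := congrFun (congrArg (fun v : Plane => (v : Fin 2 → ℝ)) h) 1
  have h0' : (q.1 : ℝ) / (4 * (K : ℝ) ^ 2) = (r.1 : ℝ) / (4 * (K : ℝ) ^ 2) := h0
  have h1' : (q.2 : ℝ) / (2 * (K : ℝ)) = (r.2 : ℝ) / (2 * (K : ℝ)) := h1
  have e0 : (q.1 : ℝ) = r.1 := by
    have h4 : (4 * (K : ℝ) ^ 2) ≠ 0 := by positivity
    exact (div_left_inj' h4).mp h0'
  have e1 : (q.2 : ℝ) = r.2 := by
    have h4 : (2 * (K : ℝ)) ≠ 0 := by positivity
    exact (div_left_inj' h4).mp h1'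
  exact Prod.ext (by exact_mod_cast e0) (by exact_mod_cast e1)

/-- The distance between lattice points, in terms of a known lattice length. -/
theorem dist_pt {K : ℕ} (hK : 0 < K) (q r : ℤ × ℤ) (L : ℝ) (hL : 0 ≤ L)
    (h : ((q.1 : ℝ) - r.1) ^ 2 + (2 * K * ((q.2 : ℝ) - r.2)) ^ 2 = L ^ 2) :
    dist (pt K q) (pt K r) = L / (4 * (K : ℝ) ^ 2) := by
  have hK' : (0 : ℝ) < K := by exact_mod_cast hK
  rw [EuclideanSpace.dist_eq]
  have e : ∑ i : Fin 2, dist ((pt K q) i) ((pt K r) i) ^ 2 = (L / (4 * (K : ℝ) ^ 2)) ^ 2 := by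
    rw [Fin.sum_univ_two]
    have a0 : (pt K q) 0 = (q.1 : ℝ) / (4 * (K : ℝ) ^ 2) := rfl
    have a1 : (pt K q) 1 = (q.2 : ℝ) / (2 * (K : ℝ)) := rfl
    have b0 : (pt K r) 0 = (r.1 : ℝ) / (4 * (K : ℝ) ^ 2) := rfl
    have b1 : (pt K r) 1 = (r.2 : ℝ) / (2 * (K : ℝ)) := rfl
    rw [a0, a1, b0, b1, Real.dist_eq, Real.dist_eq, sq_abs, sq_abs, div_pow, ← h]
    field_simp
    ring
  rw [e, Real.sqrt_sq (by positivity)]

/-- The lattice triangle with parameters `x, y, j`. -/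
def tri (K : ℕ) (p : ℤ × ℤ × ℤ) : Finset (ℤ × ℤ) :=
  {(p.1, p.2.1), (p.1 + 2 * ((K : ℤ) ^ 2 - p.2.2 ^ 2), p.2.1),
    (p.1 + ((K : ℤ) ^ 2 - p.2.2 ^ 2), p.2.1 + p.2.2)}

theorem tri_unit {K : ℕ} (hK : 0 < K) (x y j : ℤ) (hj : 1 ≤ j) (hjK : j < K) :
    IsUnitPerimeterTriangle ((tri K (x, y, j)).image (pt K)) := by
  have hK' : (0 : ℝ) < K := by exact_mod_cast hK
  have hj' : (1 : ℝ) ≤ j := by exact_mod_cast hj
  have hjK' : (j : ℝ) < K := by exact_mod_cast hjK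
  have hd : 0 < (K : ℝ) ^ 2 - (j : ℝ) ^ 2 := by nlinarith
  refine ⟨pt K (x, y), pt K (x + 2 * ((K : ℤ) ^ 2 - j ^ 2), y),
    pt K (x + ((K : ℤ) ^ 2 - j ^ 2), y + j), ?_, ?_, ?_⟩
  · simp [tri, Finset.image_insert]
  · intro hcol
    rw [collinear_iff_of_mem (p₀ := pt K (x, y)) (by simp)] at hcol
    obtain ⟨v, hv⟩ := hcol
    obtain ⟨r, hr⟩ := hv (pt K (x + 2 * ((K : ℤ) ^ 2 - j ^ 2), y)) (by simp)
    obtain ⟨s, hs⟩ := hv (pt K (x + ((K : ℤ) ^ 2 - j ^ 2), y + j)) (by simp)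
    have r0 : (((x + 2 * ((K : ℤ) ^ 2 - j ^ 2) : ℤ)) : ℝ) / (4 * (K : ℝ) ^ 2)
        = r * v 0 + (x : ℝ) / (4 * (K : ℝ) ^ 2) :=
      congrFun (congrArg (fun v : Plane => (v : Fin 2 → ℝ)) hr) 0
    have r1 : (y : ℝ) / (2 * (K : ℝ)) = r * v 1 + (y : ℝ) / (2 * (K : ℝ)) :=
      congrFun (congrArg (fun v : Plane => (v : Fin 2 → ℝ)) hr) 1
    have s1 : (((y + j : ℤ)) : ℝ) / (2 * (K : ℝ)) = s * v 1 + (y : ℝ) / (2 * (K : ℝ)) :=
      congrFun (congrArg (fun v : Plane => (v : Fin 2 → ℝ)) hs) 1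
    have r1' : r * v 1 = 0 := by linarith
    rcases mul_eq_zero.mp r1' with hr0 | hv1
    · rw [hr0, zero_mul, zero_add, div_left_inj' (by positivity)] at r0
      push_cast at r0
      linarith
    · rw [hv1, mul_zero, zero_add, div_left_inj' (by positivity)] at s1
      push_cast at s1
      linarith
  · rw [dist_pt hK _ _ (2 * ((K : ℝ) ^ 2 - (j : ℝ) ^ 2)) (by positivity),
      dist_pt hK _ _ ((K : ℝ) ^ 2 + (j : ℝ) ^ 2) (by positivity),
      dist_pt hK _ _ ((K : ℝ) ^ 2 + (j : ℝ) ^ 2) (by positivity)]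
    · field_simp
      ring
    · push_cast
      ring
    · push_cast
      ring
    · push_cast
      ring

/-- The parameter set of the triangles. -/
noncomputable def params (K : ℕ) : Finset (ℤ × ℤ × ℤ) :=
  (Finset.Ico (0 : ℤ) (2 * (K : ℤ) ^ 2)) ×ˢ ((Finset.Ico (0 : ℤ) K) ×ˢ (Finset.Ico (1 : ℤ) K))

/-- The lattice box. -/
noncomputable def box (K : ℕ) : Finset (ℤ × ℤ) :=
  (Finset.Ico (0 : ℤ) (4 * (K : ℤ) ^ 2)) ×ˢ (Finset.Ico (0 : ℤ) (2 * K))

theorem card_box (K : ℕ) : (box K).card = 8 * K ^ 3 := by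
  simp only [box, Finset.card_product, Int.card_Ico, sub_zero]
  have h1 : (4 * (K : ℤ) ^ 2).toNat = 4 * K ^ 2 := by
    have : (4 * (K : ℤ) ^ 2) = ((4 * K ^ 2 : ℕ) : ℤ) := by push_cast; ring
    rw [this, Int.toNat_natCast]
  have h2 : (2 * (K : ℤ)).toNat = 2 * K := by
    have : (2 * (K : ℤ)) = ((2 * K : ℕ) : ℤ) := by push_cast; ring
    rw [this, Int.toNat_natCast]
  rw [h1, h2]
  ring

theorem card_params (K : ℕ) : (params K).card = 2 * K ^ 3 * (K - 1) := by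
  simp only [params, Finset.card_product, Int.card_Ico, sub_zero]
  have h1 : (2 * (K : ℤ) ^ 2).toNat = 2 * K ^ 2 := by
    have : (2 * (K : ℤ) ^ 2) = ((2 * K ^ 2 : ℕ) : ℤ) := by push_cast; ring
    rw [this, Int.toNat_natCast]
  have h2 : ((K : ℤ)).toNat = K := Int.toNat_natCast K
  have h3 : ((K : ℤ) - 1).toNat = K - 1 := by omega
  rw [h1, h2, h3]
  ring

theorem tri_injOn (K : ℕ) : Set.InjOn (tri K) (params K : Set (ℤ × ℤ × ℤ)) := by
  rintro ⟨x, y, j⟩ hp ⟨x', y', j'⟩ hp' h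
  simp only [params, Finset.coe_product, Finset.coe_Ico, Set.mem_prod, Set.mem_Ico] at hp hp'
  obtain ⟨-, -, hj1, hjK⟩ := hp
  obtain ⟨-, -, hj1', hjK'⟩ := hp'
  have hd : 0 < (K : ℤ) ^ 2 - j ^ 2 := by nlinarith
  have hd' : 0 < (K : ℤ) ^ 2 - j' ^ 2 := by nlinarith
  simp only [tri] at h
  generalize (K : ℤ) ^ 2 - j ^ 2 = d at h hd
  generalize (K : ℤ) ^ 2 - j' ^ 2 = d' at h hd'
  have ha : ((x, y) : ℤ × ℤ) ∈ ({(x', y'), (x' + 2 * d', y'), (x' + d', y' + j')} :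
      Finset (ℤ × ℤ)) := by rw [← h]; simp
  have hb : ((x + 2 * d, y) : ℤ × ℤ) ∈ ({(x', y'), (x' + 2 * d', y'), (x' + d', y' + j')} :
      Finset (ℤ × ℤ)) := by rw [← h]; simp
  have hc : ((x + d, y + j) : ℤ × ℤ) ∈ ({(x', y'), (x' + 2 * d', y'), (x' + d', y' + j')} :
      Finset (ℤ × ℤ)) := by rw [← h]; simp
  simp only [Finset.mem_insert, Finset.mem_singleton, Prod.mk.injEq] at ha hb hc
  have hx : x = x' ∧ y = y' ∧ j = j' := by omega
  obtain ⟨rfl, rfl, rfl⟩ := hx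
  rfl

theorem tri_subset_box {K : ℕ} {p : ℤ × ℤ × ℤ} (hp : p ∈ params K) : tri K p ⊆ box K := by
  obtain ⟨x, y, j⟩ := p
  simp only [params, Finset.mem_product, Finset.mem_Ico] at hp
  obtain ⟨⟨hx0, hx1⟩, ⟨hy0, hy1⟩, hj1, hjK⟩ := hp
  have hd : 0 < (K : ℤ) ^ 2 - j ^ 2 := by nlinarith
  have hj2 : 0 < j ^ 2 := by positivity
  intro q hq
  simp only [tri, Finset.mem_insert, Finset.mem_singleton] at hq
  simp only [box, Finset.mem_product, Finset.mem_Ico]
  rcases hq with rfl | rfl | rfl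
  · refine ⟨⟨hx0, ?_⟩, hy0, ?_⟩ <;> simp only <;> linarith
  · refine ⟨⟨?_, ?_⟩, hy0, ?_⟩ <;> simp only <;> linarith
  · refine ⟨⟨?_, ?_⟩, ?_, ?_⟩ <;> simp only <;> linarith

theorem triCount_box {K : ℕ} (hK : 2 ≤ K) : K ^ 4 ≤ triCount ((box K).image (pt K)) := by
  classical
  have hK0 : 0 < K := by omega
  have hsub : (((params K).image fun p => (tri K p).image (pt K)) : Set (Finset Plane)) ⊆
      {t : Finset Plane | t ⊆ (box K).image (pt K) ∧ IsUnitPerimeterTriangle t} := by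
    intro t ht
    rw [Finset.mem_coe, Finset.mem_image] at ht
    obtain ⟨p, hp, rfl⟩ := ht
    refine ⟨Finset.image_subset_image (tri_subset_box hp), ?_⟩
    obtain ⟨x, y, j⟩ := p
    simp only [params, Finset.mem_product, Finset.mem_Ico] at hp
    exact tri_unit hK0 x y j hp.2.2.1 hp.2.2.2
  have hcard : ((params K).image fun p => (tri K p).image (pt K)).card = (params K).card := by
    apply Finset.card_image_of_injOn
    intro p hp q hq h
    exact tri_injOn K hp hq (Finset.image_injective (pt_injective hK0) h)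
  have h1 := Set.ncard_le_ncard hsub (finite_tri _)
  rw [Set.ncard_coe_finset, hcard, card_params] at h1
  refine le_trans ?_ h1
  have h2 : K ≤ 2 * (K - 1) := by omega
  calc K ^ 4 = K ^ 3 * K := by ring
    _ ≤ K ^ 3 * (2 * (K - 1)) := Nat.mul_le_mul_left _ h2
    _ = 2 * K ^ 3 * (K - 1) := by ring

theorem pow_le_u {K n : ℕ} (hK : 2 ≤ K) (hn : 8 * K ^ 3 ≤ n) : K ^ 4 ≤ u n := by
  refine (triCount_box hK).trans (le_u _ ?_)
  exact Finset.card_image_le.trans ((card_box K).le.trans hn)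

theorem one_le_u {n : ℕ} (hn : 3 ≤ n) : 1 ≤ u n := by
  classical
  have h := tri_unit (K := 2) (by norm_num) 0 0 1 (by norm_num) (by norm_num)
  refine le_trans ?_ (le_u ((tri 2 (0, 0, 1)).image (pt 2)) ?_)
  · have h2 : (({(tri 2 (0, 0, 1)).image (pt 2)} : Finset (Finset Plane)) :
        Set (Finset Plane)) ⊆ {t : Finset Plane | t ⊆ (tri 2 (0, 0, 1)).image (pt 2) ∧
          IsUnitPerimeterTriangle t} := by
      intro t ht
      rw [Finset.mem_coe, Finset.mem_singleton] at ht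
      subst ht
      exact ⟨subset_rfl, h⟩
    have h3 := Set.ncard_le_ncard h2 (finite_tri _)
    rw [Set.ncard_coe_finset, Finset.card_singleton] at h3
    exact h3
  · refine Finset.card_image_le.trans (le_trans ?_ hn)
    exact Finset.card_le_three

/-- **Main result.** There is a constant `c > 0` such that for every `n ≥ 3` some `n` points of
the plane span at least `c n^(4/3)` triangles of perimeter exactly `1`. -/
theorem result : ∃ c : ℝ, 0 < c ∧ ∀ n : ℕ, 3 ≤ n → c * (n : ℝ) ^ (4 / 3 : ℝ) ≤ (u n : ℝ) := by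
  refine ⟨1 / 256, by norm_num, ?_⟩
  intro n hn
  by_cases h64 : n < 64
  · have h1 : (1 : ℝ) ≤ (u n : ℝ) := by exact_mod_cast one_le_u hn
    have h2 : (n : ℝ) ^ (4 / 3 : ℝ) ≤ (64 : ℝ) ^ (4 / 3 : ℝ) := by
      apply Real.rpow_le_rpow (by positivity) _ (by norm_num)
      exact_mod_cast h64.le
    have h3 : (64 : ℝ) ^ (4 / 3 : ℝ) = 256 := by
      rw [show (64 : ℝ) = 4 ^ (3 : ℝ) by norm_num, ← Real.rpow_mul (by norm_num)]
      norm_num
    rw [h3] at h2
    linarith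
  · push Not at h64
    obtain ⟨K, hK1, hK2⟩ : ∃ K : ℕ, 8 * K ^ 3 ≤ n ∧ n < 8 * (K + 1) ^ 3 := by
      have hex : ∃ K : ℕ, n < 8 * (K + 1) ^ 3 := by
        refine ⟨n, ?_⟩
        nlinarith [Nat.zero_le n, pow_pos (Nat.succ_pos n) 3, pow_pos (Nat.succ_pos n) 2,
          Nat.le_self_pow (n := 3) (by norm_num) (n + 1)]
      classical
      refine ⟨Nat.find hex, ?_, Nat.find_spec hex⟩
      rcases Nat.eq_zero_or_pos (Nat.find hex) with h0 | h0
      · rw [h0]; simp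
      · have h5 := Nat.find_min hex (Nat.sub_lt h0 one_pos)
        rw [not_lt, Nat.sub_one_add_one h0.ne'] at h5
        exact h5
    have hK : 2 ≤ K := by
      by_contra hlt
      have : K + 1 ≤ 2 := by omega
      have h3 : (K + 1) ^ 3 ≤ 2 ^ 3 := Nat.pow_le_pow_left this 3
      omega
    have h1 : ((K : ℝ)) ^ 4 ≤ (u n : ℝ) := by exact_mod_cast pow_le_u hK hK1
    have hK' : (2 : ℝ) ≤ K := by exact_mod_cast hK
    have h2 : (n : ℝ) ≤ (3 * (K : ℝ)) ^ (3 : ℝ) := by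
      have h3 : (n : ℝ) ≤ 8 * ((K : ℝ) + 1) ^ 3 := by exact_mod_cast hK2.le
      have h4 : (K : ℝ) + 1 ≤ 3 / 2 * K := by linarith
      have h5 : ((K : ℝ) + 1) ^ 3 ≤ (3 / 2 * (K : ℝ)) ^ 3 :=
        pow_le_pow_left₀ (by positivity) h4 3
      rw [show (3 : ℝ) = ((3 : ℕ) : ℝ) by norm_num, Real.rpow_natCast]
      push_cast
      calc (n : ℝ) ≤ 8 * ((K : ℝ) + 1) ^ 3 := h3
        _ ≤ 8 * (3 / 2 * (K : ℝ)) ^ 3 := by linarith
        _ = (3 * (K : ℝ)) ^ 3 := by ring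
    have h6 : (n : ℝ) ^ (4 / 3 : ℝ) ≤ 81 * (K : ℝ) ^ 4 := by
      calc (n : ℝ) ^ (4 / 3 : ℝ) ≤ ((3 * (K : ℝ)) ^ (3 : ℝ)) ^ (4 / 3 : ℝ) :=
            Real.rpow_le_rpow (by positivity) h2 (by norm_num)
        _ = (3 * (K : ℝ)) ^ (4 : ℝ) := by
            rw [← Real.rpow_mul (by positivity)]
            norm_num
        _ = 81 * (K : ℝ) ^ 4 := by
            rw [show (4 : ℝ) = ((4 : ℕ) : ℝ) by norm_num, Real.rpow_natCast]
            ring
    have h7 : (0 : ℝ) ≤ (K : ℝ) ^ 4 := by positivity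
    linarith

end Pool.Agent.Results.MP_75315a_co.FourThirdsH55
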